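import Pool.Agent.H.MP_3abf0f_al.SD

set_option autoImplicit false
set_option linter.unusedVariables false

namespace Pool.Agent.H.MP_3abf0f_al.RSeq
open Pool.Agent.H.MP_3abf0f_al

def U0 (q : ℤ) : ℤ × ℤ := (4 * q, 1)

def U (q k : ℤ) : ℤ × ℤ :=
  if 0 ≤ k ∧ k < 8 * q - 2 ∧ k % 2 = 0 then (4 * q - k / 2, 1) else
  if 0 ≤ k ∧ k < 8 * q - 2 ∧ k % 2 = 1 then (2 * q + (k + 1) / 2, 0) else
  if k = 8 * q - 2 then (2 * q - 1, 0) else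
  if k = 8 * q - 1 then (4 * q + 1, 1) else
  if k = 8 * q then (2 * q, 0) else
  if 8 * q + 1 ≤ k ∧ k < 10 * q ∧ k % 2 = 0 then ((k - 8 * q) / 2, 0) else
  if 8 * q + 1 ≤ k ∧ k < 10 * q ∧ k % 2 = 1 then (8 * q - (k - 8 * q + 1) / 2, 0) else
  if 10 * q ≤ k ∧ k < 12 * q - 1 ∧ k % 2 = 0 then (7 * q - 1 - (k - 10 * q) / 2, 0) else
  if 10 * q ≤ k ∧ k < 12 * q - 1 ∧ k % 2 = 1 then (q + (k - 10 * q) / 2, 0) else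
  if 12 * q - 1 ≤ k ∧ k < 14 * q - 3 ∧ k % 2 = 0 then (4 * q + 2 + (k - 12 * q) / 2, 1) else
  if 12 * q - 1 ≤ k ∧ k < 14 * q - 3 ∧ k % 2 = 1 then (8 * q - (k + 1 - 12 * q) / 2, 1) else
  if k = 14 * q - 3 then (7 * q, 1) else
  if k = 14 * q - 2 then (7 * q + 1, 1) else
  if 14 * q - 1 ≤ k ∧ k < 16 * q - 2 ∧ k % 2 = 0 then (7 * q - 1 - (k - 14 * q) / 2, 1) else
  if 14 * q - 1 ≤ k ∧ k < 16 * q - 2 ∧ k % 2 = 1 then (5 * q + 1 + (k + 1 - 14 * q) / 2, 1) else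
  if k = 16 * q - 2 then (1, 1) else
  U0 q
lemma U1 {q k : ℤ} (hq : 2 ≤ q) (h : 0 ≤ k ∧ k < 8 * q - 2 ∧ k % 2 = 0) : U q k = (4 * q - k / 2, 1) := by
  rw [U, if_pos h]
lemma U2 {q k : ℤ} (hq : 2 ≤ q) (h : 0 ≤ k ∧ k < 8 * q - 2 ∧ k % 2 = 1) : U q k = (2 * q + (k + 1) / 2, 0) := by
  rw [U, if_neg (by omega), if_pos h]
lemma U3 {q k : ℤ} (hq : 2 ≤ q) (h : k = 8 * q - 2) : U q k = (2 * q - 1, 0) := by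
  rw [U, if_neg (by omega), if_neg (by omega), if_pos h]
lemma U4 {q k : ℤ} (hq : 2 ≤ q) (h : k = 8 * q - 1) : U q k = (4 * q + 1, 1) := by
  rw [U, if_neg (by omega), if_neg (by omega), if_neg (by omega), if_pos h]
lemma U5 {q k : ℤ} (hq : 2 ≤ q) (h : k = 8 * q) : U q k = (2 * q, 0) := by
  rw [U, if_neg (by omega), if_neg (by omega), if_neg (by omega), if_neg (by omega), if_pos h]
lemma U6 {q k : ℤ} (hq : 2 ≤ q) (h : 8 * q + 1 ≤ k ∧ k < 10 * q ∧ k % 2 = 0) : U q k = ((k - 8 * q) / 2, 0) := by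
  rw [U, if_neg (by omega), if_neg (by omega), if_neg (by omega), if_neg (by omega), if_neg (by omega), if_pos h]
lemma U7 {q k : ℤ} (hq : 2 ≤ q) (h : 8 * q + 1 ≤ k ∧ k < 10 * q ∧ k % 2 = 1) : U q k = (8 * q - (k - 8 * q + 1) / 2, 0) := by
  rw [U, if_neg (by omega), if_neg (by omega), if_neg (by omega), if_neg (by omega), if_neg (by omega), if_neg (by omega), if_pos h]
lemma U8 {q k : ℤ} (hq : 2 ≤ q) (h : 10 * q ≤ k ∧ k < 12 * q - 1 ∧ k % 2 = 0) : U q k = (7 * q - 1 - (k - 10 * q) / 2, 0) := by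
  rw [U, if_neg (by omega), if_neg (by omega), if_neg (by omega), if_neg (by omega), if_neg (by omega), if_neg (by omega), if_neg (by omega), if_pos h]
lemma U9 {q k : ℤ} (hq : 2 ≤ q) (h : 10 * q ≤ k ∧ k < 12 * q - 1 ∧ k % 2 = 1) : U q k = (q + (k - 10 * q) / 2, 0) := by
  rw [U, if_neg (by omega), if_neg (by omega), if_neg (by omega), if_neg (by omega), if_neg (by omega), if_neg (by omega), if_neg (by omega), if_neg (by omega), if_pos h]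
lemma U10 {q k : ℤ} (hq : 2 ≤ q) (h : 12 * q - 1 ≤ k ∧ k < 14 * q - 3 ∧ k % 2 = 0) : U q k = (4 * q + 2 + (k - 12 * q) / 2, 1) := by
  rw [U, if_neg (by omega), if_neg (by omega), if_neg (by omega), if_neg (by omega), if_neg (by omega), if_neg (by omega), if_neg (by omega), if_neg (by omega), if_neg (by omega), if_pos h]
lemma U11 {q k : ℤ} (hq : 2 ≤ q) (h : 12 * q - 1 ≤ k ∧ k < 14 * q - 3 ∧ k % 2 = 1) : U q k = (8 * q - (k + 1 - 12 * q) / 2, 1) := by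
  rw [U, if_neg (by omega), if_neg (by omega), if_neg (by omega), if_neg (by omega), if_neg (by omega), if_neg (by omega), if_neg (by omega), if_neg (by omega), if_neg (by omega), if_neg (by omega), if_pos h]
lemma U12 {q k : ℤ} (hq : 2 ≤ q) (h : k = 14 * q - 3) : U q k = (7 * q, 1) := by
  rw [U, if_neg (by omega), if_neg (by omega), if_neg (by omega), if_neg (by omega), if_neg (by omega), if_neg (by omega), if_neg (by omega), if_neg (by omega), if_neg (by omega), if_neg (by omega), if_neg (by omega), if_pos h]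
lemma U13 {q k : ℤ} (hq : 2 ≤ q) (h : k = 14 * q - 2) : U q k = (7 * q + 1, 1) := by
  rw [U, if_neg (by omega), if_neg (by omega), if_neg (by omega), if_neg (by omega), if_neg (by omega), if_neg (by omega), if_neg (by omega), if_neg (by omega), if_neg (by omega), if_neg (by omega), if_neg (by omega), if_neg (by omega), if_pos h]
lemma U14 {q k : ℤ} (hq : 2 ≤ q) (h : 14 * q - 1 ≤ k ∧ k < 16 * q - 2 ∧ k % 2 = 0) : U q k = (7 * q - 1 - (k - 14 * q) / 2, 1) := by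
  rw [U, if_neg (by omega), if_neg (by omega), if_neg (by omega), if_neg (by omega), if_neg (by omega), if_neg (by omega), if_neg (by omega), if_neg (by omega), if_neg (by omega), if_neg (by omega), if_neg (by omega), if_neg (by omega), if_neg (by omega), if_pos h]
lemma U15 {q k : ℤ} (hq : 2 ≤ q) (h : 14 * q - 1 ≤ k ∧ k < 16 * q - 2 ∧ k % 2 = 1) : U q k = (5 * q + 1 + (k + 1 - 14 * q) / 2, 1) := by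
  rw [U, if_neg (by omega), if_neg (by omega), if_neg (by omega), if_neg (by omega), if_neg (by omega), if_neg (by omega), if_neg (by omega), if_neg (by omega), if_neg (by omega), if_neg (by omega), if_neg (by omega), if_neg (by omega), if_neg (by omega), if_neg (by omega), if_pos h]
lemma U16 {q k : ℤ} (hq : 2 ≤ q) (h : k = 16 * q - 2) : U q k = (1, 1) := by
  rw [U, if_neg (by omega), if_neg (by omega), if_neg (by omega), if_neg (by omega), if_neg (by omega), if_neg (by omega), if_neg (by omega), if_neg (by omega), if_neg (by omega), if_neg (by omega), if_neg (by omega), if_neg (by omega), if_neg (by omega), if_neg (by omega), if_neg (by omega), if_pos h]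
lemma Ulast {q k : ℤ} (hq : 2 ≤ q) (h : k = 16 * q - 1) : U q k = U0 q := by
  rw [U, if_neg (by omega), if_neg (by omega), if_neg (by omega), if_neg (by omega), if_neg (by omega), if_neg (by omega), if_neg (by omega), if_neg (by omega), if_neg (by omega), if_neg (by omega), if_neg (by omega), if_neg (by omega), if_neg (by omega), if_neg (by omega), if_neg (by omega), if_neg (by omega)]
def ED (q k x s : ℤ) : Prop :=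
  ((0 ≤ k ∧ k < 8 * q - 2 ∧ k % 2 = 0) ∧ x = 4 * q - k / 2 ∧ s = 1) ∨
  ((0 ≤ k ∧ k < 8 * q - 2 ∧ k % 2 = 1) ∧ x = 2 * q + (k + 1) / 2 ∧ s = 0) ∨
  ((k = 8 * q - 2) ∧ x = 2 * q - 1 ∧ s = 0) ∨
  ((k = 8 * q - 1) ∧ x = 4 * q + 1 ∧ s = 1) ∨
  ((k = 8 * q) ∧ x = 2 * q ∧ s = 0) ∨
  ((8 * q + 1 ≤ k ∧ k < 10 * q ∧ k % 2 = 0) ∧ x = (k - 8 * q) / 2 ∧ s = 0) ∨
  ((8 * q + 1 ≤ k ∧ k < 10 * q ∧ k % 2 = 1) ∧ x = 8 * q - (k - 8 * q + 1) / 2 ∧ s = 0) ∨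
  ((10 * q ≤ k ∧ k < 12 * q - 1 ∧ k % 2 = 0) ∧ x = 7 * q - 1 - (k - 10 * q) / 2 ∧ s = 0) ∨
  ((10 * q ≤ k ∧ k < 12 * q - 1 ∧ k % 2 = 1) ∧ x = q + (k - 10 * q) / 2 ∧ s = 0) ∨
  ((12 * q - 1 ≤ k ∧ k < 14 * q - 3 ∧ k % 2 = 0) ∧ x = 4 * q + 2 + (k - 12 * q) / 2 ∧ s = 1) ∨
  ((12 * q - 1 ≤ k ∧ k < 14 * q - 3 ∧ k % 2 = 1) ∧ x = 8 * q - (k + 1 - 12 * q) / 2 ∧ s = 1) ∨
  ((k = 14 * q - 3) ∧ x = 7 * q ∧ s = 1) ∨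
  ((k = 14 * q - 2) ∧ x = 7 * q + 1 ∧ s = 1) ∨
  ((14 * q - 1 ≤ k ∧ k < 16 * q - 2 ∧ k % 2 = 0) ∧ x = 7 * q - 1 - (k - 14 * q) / 2 ∧ s = 1) ∨
  ((14 * q - 1 ≤ k ∧ k < 16 * q - 2 ∧ k % 2 = 1) ∧ x = 5 * q + 1 + (k + 1 - 14 * q) / 2 ∧ s = 1) ∨
  ((k = 16 * q - 2) ∧ x = 1 ∧ s = 1)
lemma ed {q k : ℤ} (hq : 2 ≤ q) (h0 : 0 ≤ k) (h1 : k < 16 * q - 1) : ED q k (U q k).1 (U q k).2 := by
  rcases (show (0 ≤ k ∧ k < 8 * q - 2 ∧ k % 2 = 0) ∨ (0 ≤ k ∧ k < 8 * q - 2 ∧ k % 2 = 1) ∨ (k = 8 * q - 2) ∨ (k = 8 * q - 1) ∨ (k = 8 * q) ∨ (8 * q + 1 ≤ k ∧ k < 10 * q ∧ k % 2 = 0) ∨ (8 * q + 1 ≤ k ∧ k < 10 * q ∧ k % 2 = 1) ∨ (10 * q ≤ k ∧ k < 12 * q - 1 ∧ k % 2 = 0) ∨ (10 * q ≤ k ∧ k < 12 * q - 1 ∧ k % 2 = 1) ∨ (12 * q - 1 ≤ k ∧ k < 14 * q - 3 ∧ k % 2 = 0) ∨ (12 * q - 1 ≤ k ∧ k < 14 * q - 3 ∧ k % 2 = 1) ∨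 (k = 14 * q - 3) ∨ (k = 14 * q - 2) ∨ (14 * q - 1 ≤ k ∧ k < 16 * q - 2 ∧ k % 2 = 0) ∨ (14 * q - 1 ≤ k ∧ k < 16 * q - 2 ∧ k % 2 = 1) ∨ (k = 16 * q - 2) by omega) with h | h | h | h | h | h | h | h | h | h | h | h | h | h | h | h
  · rw [U1 hq h]; exact .inl ⟨h, rfl, rfl⟩
  · rw [U2 hq h]; exact .inr (.inl ⟨h, rfl, rfl⟩)
  · rw [U3 hq h]; exact .inr (.inr (.inl ⟨h, rfl, rfl⟩))
  · rw [U4 hq h]; exact .inr (.inr (.inr (.inl ⟨h, rfl, rfl⟩)))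
  · rw [U5 hq h]; exact .inr (.inr (.inr (.inr (.inl ⟨h, rfl, rfl⟩))))
  · rw [U6 hq h]; exact .inr (.inr (.inr (.inr (.inr (.inl ⟨h, rfl, rfl⟩)))))
  · rw [U7 hq h]; exact .inr (.inr (.inr (.inr (.inr (.inr (.inl ⟨h, rfl, rfl⟩))))))
  · rw [U8 hq h]; exact .inr (.inr (.inr (.inr (.inr (.inr (.inr (.inl ⟨h, rfl, rfl⟩)))))))
  · rw [U9 hq h]; exact .inr (.inr (.inr (.inr (.inr (.inr (.inr (.inr (.inl ⟨h, rfl, rfl⟩))))))))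
  · rw [U10 hq h]; exact .inr (.inr (.inr (.inr (.inr (.inr (.inr (.inr (.inr (.inl ⟨h, rfl, rfl⟩)))))))))
  · rw [U11 hq h]; exact .inr (.inr (.inr (.inr (.inr (.inr (.inr (.inr (.inr (.inr (.inl ⟨h, rfl, rfl⟩))))))))))
  · rw [U12 hq h]; exact .inr (.inr (.inr (.inr (.inr (.inr (.inr (.inr (.inr (.inr (.inr (.inl ⟨h, rfl, rfl⟩)))))))))))
  · rw [U13 hq h]; exact .inr (.inr (.inr (.inr (.inr (.inr (.inr (.inr (.inr (.inr (.inr (.inr (.inl ⟨h, rfl, rfl⟩))))))))))))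
  · rw [U14 hq h]; exact .inr (.inr (.inr (.inr (.inr (.inr (.inr (.inr (.inr (.inr (.inr (.inr (.inr (.inl ⟨h, rfl, rfl⟩)))))))))))))
  · rw [U15 hq h]; exact .inr (.inr (.inr (.inr (.inr (.inr (.inr (.inr (.inr (.inr (.inr (.inr (.inr (.inr (.inl ⟨h, rfl, rfl⟩))))))))))))))
  · rw [U16 hq h]; exact .inr (.inr (.inr (.inr (.inr (.inr (.inr (.inr (.inr (.inr (.inr (.inr (.inr (.inr (.inr (⟨h, rfl, rfl⟩)))))))))))))))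
def LD (q k p t : ℤ) : Prop :=
  ((0 ≤ k ∧ k < 8 * q - 3 ∧ k % 2 = 0) ∧ p = 4 * q - k / 2 - (2 * q + ((k + 1) + 1) / 2) + 4 * (3) * q ∧ t = 1) ∨
  ((0 ≤ k ∧ k < 8 * q - 3 ∧ k % 2 = 1) ∧ p = 4 * q - (k + 1) / 2 - (2 * q + (k + 1) / 2) + 8 * (1) * q ∧ t = 1) ∨
  ((k = 8 * q - 3) ∧ p = 2 * q - 1 - (2 * q + (k + 1) / 2) + 8 * (1) * q ∧ t = 0) ∨
  ((k = 8 * q - 2) ∧ p = 4 * q + 1 - (2 * q - 1) + 8 * (0) * q ∧ t = 1) ∨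
  ((k = 8 * q - 1) ∧ p = 4 * q + 1 - (2 * q) + 4 * (1) * q ∧ t = 1) ∨
  ((k = 8 * q) ∧ p = 8 * q - ((k + 1) - 8 * q + 1) / 2 - (2 * q) + 8 * (0) * q ∧ t = 0) ∨
  ((8 * q + 1 ≤ k ∧ k < 10 * q - 1 ∧ k % 2 = 1) ∧ p = ((k + 1) - 8 * q) / 2 - (8 * q - (k - 8 * q + 1) / 2) + 8 * (1) * q ∧ t = 0) ∨
  ((8 * q + 1 ≤ k ∧ k < 10 * q - 1 ∧ k % 2 = 0) ∧ p = 8 * q - ((k + 1) - 8 * q + 1) / 2 - ((k - 8 * q) / 2) + 8 * (0) * q ∧ t = 0) ∨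
  ((k = 10 * q - 1) ∧ p = 7 * q - 1 - ((k + 1) - 10 * q) / 2 - (8 * q - (k - 8 * q + 1) / 2) + 8 * (1) * q ∧ t = 0) ∨
  ((10 * q ≤ k ∧ k < 12 * q - 2 ∧ k % 2 = 0) ∧ p = q + ((k + 1) - 10 * q) / 2 - (7 * q - 1 - (k - 10 * q) / 2) + 8 * (1) * q ∧ t = 0) ∨
  ((10 * q ≤ k ∧ k < 12 * q - 2 ∧ k % 2 = 1) ∧ p = 7 * q - 1 - ((k + 1) - 10 * q) / 2 - (q + (k - 10 * q) / 2) + 8 * (0) * q ∧ t = 0) ∨
  ((k = 12 * q - 2) ∧ p = 8 * q - ((k + 1) + 1 - 12 * q) / 2 - (7 * q - 1 - (k - 10 * q) / 2) + 8 * (0) * q ∧ t = 1) ∨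
  ((12 * q - 1 ≤ k ∧ k < 14 * q - 4 ∧ k % 2 = 1) ∧ p = 8 * q - (k + 1 - 12 * q) / 2 - (4 * q + 2 + ((k + 1) - 12 * q) / 2) + 4 * (0) * q ∧ t = 2) ∨
  ((k = 14 * q - 4) ∧ p = 4 * q + 2 + (k - 12 * q) / 2 - (7 * q) + 4 * (2) * q ∧ t = 2) ∨
  ((k = 14 * q - 3) ∧ p = 7 * q - (7 * q + 1) + 4 * (1) * q ∧ t = 2) ∨
  ((k = 14 * q - 2) ∧ p = 7 * q + 1 - (5 * q + 1 + ((k + 1) + 1 - 14 * q) / 2) + 4 * (0) * q ∧ t = 2) ∨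
  ((14 * q - 1 ≤ k ∧ k < 16 * q - 3 ∧ k % 2 = 1) ∧ p = 5 * q + 1 + (k + 1 - 14 * q) / 2 - (7 * q - 1 - ((k + 1) - 14 * q) / 2) + 4 * (2) * q ∧ t = 2) ∨
  ((14 * q - 1 ≤ k ∧ k < 16 * q - 3 ∧ k % 2 = 0) ∧ p = 7 * q - 1 - (k - 14 * q) / 2 - (5 * q + 1 + ((k + 1) + 1 - 14 * q) / 2) + 4 * (1) * q ∧ t = 2) ∨
  ((k = 16 * q - 3) ∧ p = 5 * q + 1 + (k + 1 - 14 * q) / 2 - (1) + 4 * (-1) * q ∧ t = 2) ∨
  ((k = 16 * q - 2) ∧ p = 1 - (4 * q) + 4 * (1) * q ∧ t = 2) ∨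
  ((12 * q - 1 ≤ k ∧ k < 14 * q - 4 ∧ k % 2 = 0) ∧ p = 4 * q + 2 + (k - 12 * q) / 2 - (8 * q - ((k + 1) + 1 - 12 * q) / 2) + 4 * (1) * q ∧ t = 2)
lemma ld {G : Type*} [Group G] {q k : ℤ} {a b : G} (H : SD q a b) (hq : 2 ≤ q) (h0 : 0 ≤ k) (h1 : k < 16 * q - 1) :
    ∃ p t, (a ^ (U q k).1 * b ^ (U q k).2)⁻¹ * (a ^ (U q (k + 1)).1 * b ^ (U q (k + 1)).2) = a ^ p * b ^ t ∧ LD q k p t := by
  rcases (show (0 ≤ k ∧ k < 8 * q - 3 ∧ k % 2 = 0) ∨ (0 ≤ k ∧ k < 8 * q - 3 ∧ k % 2 = 1) ∨ (k = 8 * q - 3) ∨ (k = 8 * q - 2) ∨ (k = 8 * q - 1) ∨ (k = 8 * q) ∨ (8 * q + 1 ≤ k ∧ k < 10 * q - 1 ∧ k % 2 = 1) ∨ (8 * q + 1 ≤ k ∧ k < 10 * q - 1 ∧ k % 2 = 0) ∨ (k = 10 * q - 1) ∨ (10 * q ≤ k ∧ k < 12 * q - 2 ∧ k % 2 = 0) ∨ (10 * q ≤ k ∧ k < 12 * q - 2 ∧ k % 2 = 1) ∨ (k = 12 * q - 2) ∨ (12 * q - 1 ≤ k ∧ k < 14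 * q - 4 ∧ k % 2 = 1) ∨ (k = 14 * q - 4) ∨ (k = 14 * q - 3) ∨ (k = 14 * q - 2) ∨ (14 * q - 1 ≤ k ∧ k < 16 * q - 3 ∧ k % 2 = 1) ∨ (14 * q - 1 ≤ k ∧ k < 16 * q - 3 ∧ k % 2 = 0) ∨ (k = 16 * q - 3) ∨ (k = 16 * q - 2) ∨ (12 * q - 1 ≤ k ∧ k < 14 * q - 4 ∧ k % 2 = 0) by omega) with h | h | h | h | h | h | h | h | h | h | h | h | h | h | h | h | h | h | h | h | h
  · rw [U1 (k := k) hq (by omega), U2 (k := k + 1) hq (by omega)]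
    exact ⟨_, _, H.d1 (3) rfl (by omega) rfl, .inl ⟨h, rfl, rfl⟩⟩
  · rw [U2 (k := k) hq (by omega), U1 (k := k + 1) hq (by omega)]
    exact ⟨_, _, H.d0 (1) rfl rfl, .inr (.inl ⟨h, rfl, rfl⟩)⟩
  · rw [U2 (k := k) hq (by omega), U3 (k := k + 1) hq (by omega)]
    exact ⟨_, _, H.d0 (1) rfl rfl, .inr (.inr (.inl ⟨h, rfl, rfl⟩))⟩
  · rw [U3 (k := k) hq (by omega), U4 (k := k + 1) hq (by omega)]
    exact ⟨_, _, H.d0 (0) rfl rfl, .inr (.inr (.inr (.inl ⟨h, rfl, rfl⟩)))⟩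
  · rw [U4 (k := k) hq (by omega), U5 (k := k + 1) hq (by omega)]
    exact ⟨_, _, H.d1 (1) rfl (by omega) rfl, .inr (.inr (.inr (.inr (.inl ⟨h, rfl, rfl⟩))))⟩
  · rw [U5 (k := k) hq (by omega), U7 (k := k + 1) hq (by omega)]
    exact ⟨_, _, H.d0 (0) rfl rfl, .inr (.inr (.inr (.inr (.inr (.inl ⟨h, rfl, rfl⟩)))))⟩
  · rw [U7 (k := k) hq (by omega), U6 (k := k + 1) hq (by omega)]
    exact ⟨_, _, H.d0 (1) rfl rfl, .inr (.inr (.inr (.inr (.inr (.inr (.inl ⟨h, rfl, rfl⟩))))))⟩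
  · rw [U6 (k := k) hq (by omega), U7 (k := k + 1) hq (by omega)]
    exact ⟨_, _, H.d0 (0) rfl rfl, .inr (.inr (.inr (.inr (.inr (.inr (.inr (.inl ⟨h, rfl, rfl⟩)))))))⟩
  · rw [U7 (k := k) hq (by omega), U8 (k := k + 1) hq (by omega)]
    exact ⟨_, _, H.d0 (1) rfl rfl, .inr (.inr (.inr (.inr (.inr (.inr (.inr (.inr (.inl ⟨h, rfl, rfl⟩))))))))⟩
  · rw [U8 (k := k) hq (by omega), U9 (k := k + 1) hq (by omega)]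
    exact ⟨_, _, H.d0 (1) rfl rfl, .inr (.inr (.inr (.inr (.inr (.inr (.inr (.inr (.inr (.inl ⟨h, rfl, rfl⟩)))))))))⟩
  · rw [U9 (k := k) hq (by omega), U8 (k := k + 1) hq (by omega)]
    exact ⟨_, _, H.d0 (0) rfl rfl, .inr (.inr (.inr (.inr (.inr (.inr (.inr (.inr (.inr (.inr (.inl ⟨h, rfl, rfl⟩))))))))))⟩
  · rw [U8 (k := k) hq (by omega), U11 (k := k + 1) hq (by omega)]
    exact ⟨_, _, H.d0 (0) rfl rfl, .inr (.inr (.inr (.inr (.inr (.inr (.inr (.inr (.inr (.inr (.inr (.inl ⟨h, rfl, rfl⟩)))))))))))⟩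
  · rw [U11 (k := k) hq (by omega), U10 (k := k + 1) hq (by omega)]
    exact ⟨_, _, H.d1 (0) rfl (by omega) rfl, .inr (.inr (.inr (.inr (.inr (.inr (.inr (.inr (.inr (.inr (.inr (.inr (.inl ⟨h, rfl, rfl⟩))))))))))))⟩
  · rw [U10 (k := k) hq (by omega), U12 (k := k + 1) hq (by omega)]
    exact ⟨_, _, H.d1 (2) rfl (by omega) rfl, .inr (.inr (.inr (.inr (.inr (.inr (.inr (.inr (.inr (.inr (.inr (.inr (.inr (.inl ⟨h, rfl, rfl⟩)))))))))))))⟩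
  · rw [U12 (k := k) hq (by omega), U13 (k := k + 1) hq (by omega)]
    exact ⟨_, _, H.d1 (1) rfl (by omega) rfl, .inr (.inr (.inr (.inr (.inr (.inr (.inr (.inr (.inr (.inr (.inr (.inr (.inr (.inr (.inl ⟨h, rfl, rfl⟩))))))))))))))⟩
  · rw [U13 (k := k) hq (by omega), U15 (k := k + 1) hq (by omega)]
    exact ⟨_, _, H.d1 (0) rfl (by omega) rfl, .inr (.inr (.inr (.inr (.inr (.inr (.inr (.inr (.inr (.inr (.inr (.inr (.inr (.inr (.inr (.inl ⟨h, rfl, rfl⟩)))))))))))))))⟩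
  · rw [U15 (k := k) hq (by omega), U14 (k := k + 1) hq (by omega)]
    exact ⟨_, _, H.d1 (2) rfl (by omega) rfl, .inr (.inr (.inr (.inr (.inr (.inr (.inr (.inr (.inr (.inr (.inr (.inr (.inr (.inr (.inr (.inr (.inl ⟨h, rfl, rfl⟩))))))))))))))))⟩
  · rw [U14 (k := k) hq (by omega), U15 (k := k + 1) hq (by omega)]
    exact ⟨_, _, H.d1 (1) rfl (by omega) rfl, .inr (.inr (.inr (.inr (.inr (.inr (.inr (.inr (.inr (.inr (.inr (.inr (.inr (.inr (.inr (.inr (.inr (.inl ⟨h, rfl, rfl⟩)))))))))))))))))⟩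
  · rw [U15 (k := k) hq (by omega), U16 (k := k + 1) hq (by omega)]
    exact ⟨_, _, H.d1 (-1) rfl (by omega) rfl, .inr (.inr (.inr (.inr (.inr (.inr (.inr (.inr (.inr (.inr (.inr (.inr (.inr (.inr (.inr (.inr (.inr (.inr (.inl ⟨h, rfl, rfl⟩))))))))))))))))))⟩
  · rw [U16 (k := k) hq (by omega), Ulast (k := k + 1) hq (by omega), U0]
    exact ⟨_, _, H.d1 (1) rfl (by omega) rfl, .inr (.inr (.inr (.inr (.inr (.inr (.inr (.inr (.inr (.inr (.inr (.inr (.inr (.inr (.inr (.inr (.inr (.inr (.inr (.inl ⟨h, rfl, rfl⟩)))))))))))))))))))⟩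
  · rw [U10 (k := k) hq (by omega), U11 (k := k + 1) hq (by omega)]
    exact ⟨_, _, H.d1 (1) rfl (by omega) rfl, .inr (.inr (.inr (.inr (.inr (.inr (.inr (.inr (.inr (.inr (.inr (.inr (.inr (.inr (.inr (.inr (.inr (.inr (.inr (.inr (⟨h, rfl, rfl⟩))))))))))))))))))))⟩
lemma ED_rng {q k x s : ℤ} (hq : 2 ≤ q) (h : ED q k x s) : 0 ≤ x ∧ x < 16 * q := by
  rcases h with ⟨h, rfl, rfl⟩ | ⟨h, rfl, rfl⟩ | ⟨h, rfl, rfl⟩ | ⟨h, rfl, rfl⟩ | ⟨h, rfl, rfl⟩ | ⟨h, rfl, rfl⟩ | ⟨h, rfl, rfl⟩ | ⟨h, rfl, rfl⟩ | ⟨h, rfl, rfl⟩ | ⟨h, rfl, rfl⟩ | ⟨h, rfl, rfl⟩ | ⟨h, rfl, rfl⟩ | ⟨h, rfl, rfl⟩ | ⟨h, rfl, rfl⟩ | ⟨h, rfl, rfl⟩ | ⟨h, rfl, rfl⟩ <;> omega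
lemma ED_inj {q k x s l y t : ℤ} (hq : 2 ≤ q) (h : ED q k x s) (g : ED q l y t)
    (e : (x = y ∨ x = y + 8 * q ∨ y = x + 8 * q) ∧ (s - t) % 2 = 0) : k = l := by
  rcases h with ⟨h, rfl, rfl⟩ | ⟨h, rfl, rfl⟩ | ⟨h, rfl, rfl⟩ | ⟨h, rfl, rfl⟩ | ⟨h, rfl, rfl⟩ | ⟨h, rfl, rfl⟩ | ⟨h, rfl, rfl⟩ | ⟨h, rfl, rfl⟩ | ⟨h, rfl, rfl⟩ | ⟨h, rfl, rfl⟩ | ⟨h, rfl, rfl⟩ | ⟨h, rfl, rfl⟩ | ⟨h, rfl, rfl⟩ | ⟨h, rfl, rfl⟩ | ⟨h, rfl, rfl⟩ | ⟨h, rfl, rfl⟩ <;> rcases g with ⟨g, rfl, rfl⟩ | ⟨g, rfl, rfl⟩ | ⟨g, rfl, rfl⟩ | ⟨g, rfl, rfl⟩ | ⟨g, rfl, rfl⟩ | ⟨g, rfl, rfl⟩ | ⟨g, rfl, rfl⟩ | ⟨g, rfl, rfl⟩ | ⟨g, rfl, rfl⟩ | ⟨g, rfl, rfl⟩ | ⟨g, rfl, rfl⟩ | ⟨g, rfl, rfl⟩ | ⟨g, rfl, rfl⟩ | ⟨g, rfl, rfl⟩ | ⟨g, rfl, rfl⟩ | ⟨g, rfl, rfl⟩ <;>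
    first | exact absurd e.2 (by decide) | (have e := e.1; omega)
lemma LD_rng {q k x s : ℤ} (hq : 2 ≤ q) (h : LD q k x s) : 0 ≤ x ∧ x < 16 * q := by
  rcases h with ⟨h, rfl, rfl⟩ | ⟨h, rfl, rfl⟩ | ⟨h, rfl, rfl⟩ | ⟨h, rfl, rfl⟩ | ⟨h, rfl, rfl⟩ | ⟨h, rfl, rfl⟩ | ⟨h, rfl, rfl⟩ | ⟨h, rfl, rfl⟩ | ⟨h, rfl, rfl⟩ | ⟨h, rfl, rfl⟩ | ⟨h, rfl, rfl⟩ | ⟨h, rfl, rfl⟩ | ⟨h, rfl, rfl⟩ | ⟨h, rfl, rfl⟩ | ⟨h, rfl, rfl⟩ | ⟨h, rfl, rfl⟩ | ⟨h, rfl, rfl⟩ | ⟨h, rfl, rfl⟩ | ⟨h, rfl, rfl⟩ | ⟨h, rfl, rfl⟩ | ⟨h, rfl, rfl⟩ <;> omega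
lemma LD_inj {q k x s l y t : ℤ} (hq : 2 ≤ q) (h : LD q k x s) (g : LD q l y t)
    (e : (x = y ∨ x = y + 8 * q ∨ y = x + 8 * q) ∧ (s - t) % 2 = 0) : k = l := by
  rcases h with ⟨h, rfl, rfl⟩ | ⟨h, rfl, rfl⟩ | ⟨h, rfl, rfl⟩ | ⟨h, rfl, rfl⟩ | ⟨h, rfl, rfl⟩ | ⟨h, rfl, rfl⟩ | ⟨h, rfl, rfl⟩ | ⟨h, rfl, rfl⟩ | ⟨h, rfl, rfl⟩ | ⟨h, rfl, rfl⟩ | ⟨h, rfl, rfl⟩ | ⟨h, rfl, rfl⟩ | ⟨h, rfl, rfl⟩ | ⟨h, rfl, rfl⟩ | ⟨h, rfl, rfl⟩ | ⟨h, rfl, rfl⟩ | ⟨h, rfl, rfl⟩ | ⟨h, rfl, rfl⟩ | ⟨h, rfl, rfl⟩ | ⟨h, rfl, rfl⟩ | ⟨h, rfl, rfl⟩ <;> rcases g with ⟨g, rfl, rfl⟩ | ⟨g, rfl, rfl⟩ | ⟨g, rfl, rfl⟩ | ⟨g, rfl, rfl⟩ | ⟨g, rfl, rfl⟩ | ⟨g, rfl, rfl⟩ | ⟨g, rfl, rfl⟩ | ⟨g, rfl, rfl⟩ | ⟨g, rfl, rfl⟩ | ⟨g, rfl, rfl⟩ | ⟨g, rfl, rfl⟩ | ⟨g, rfl, rfl⟩ | ⟨g, rfl, rfl⟩ | ⟨g, rfl, rfl⟩ | ⟨g, rfl, rfl⟩ | ⟨g, rfl, rfl⟩ | ⟨g, rfl,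 rfl⟩ | ⟨g, rfl, rfl⟩ | ⟨g, rfl, rfl⟩ | ⟨g, rfl, rfl⟩ | ⟨g, rfl, rfl⟩ <;>
    first | exact absurd e.2 (by decide) | (have e := e.1; omega)

end Pool.Agent.H.MP_3abf0f_al.RSeq

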