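import Mathlib

set_option autoImplicit false
open Function

namespace Pool.Agent.H.MP_3abf0f_al

variable {G : Type*} [Group G]

structure SD (q : ℤ) (a b : G) : Prop where
  ha : a ^ (8 * q) = 1
  hb : b ^ (2 : ℤ) = 1
  hba : b * a * b⁻¹ = a ^ (4 * q - 1)
  inj : ∀ x s y t : ℤ, a ^ x * b ^ s = a ^ y * b ^ t → 8 * q ∣ x - y ∧ 2 ∣ s - t

lemma red {a : G} {n : ℤ} (h : a ^ n = 1) {x y : ℤ} (d : n ∣ x - y) : a ^ x = a ^ y := by
  obtain ⟨c, e⟩ := d
  rw [show x = y + n * c by omega, zpow_add, zpow_mul, h, one_zpow, mul_one]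

lemma conj {a b : G} {r : ℤ} (h : b * a * b⁻¹ = a ^ r) (y : ℤ) : b * a ^ y = a ^ (r * y) * b := by
  rw [zpow_mul, ← h, conj_zpow, inv_mul_cancel_right]

lemma mkSD [Fintype G] (q : ℕ) (hq : 0 < q) (a b : G) (ha : a ^ (8 * q) = 1) (hb : b ^ 2 = 1)
    (hba : b * a * b⁻¹ = a ^ (4 * q - 1)) (hc : Fintype.card G = 16 * q)
    (hg : Subgroup.closure {a, b} = ⊤) : SD q a b := by
  have ha' : a ^ (8 * q : ℤ) = 1 := by exact_mod_cast ha
  have hb' : b ^ (2 : ℤ) = 1 := by exact_mod_cast hb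
  have hba' : b * a * b⁻¹ = a ^ (4 * q - 1 : ℤ) := by
    rw [hba, ← zpow_natCast, Nat.cast_sub (by omega)]; simp
  let F : Fin (8 * q) × Fin 2 → G := fun p => a ^ (p.1 : ℤ) * b ^ (p.2 : ℤ)
  let π : ℤ → ℤ → Fin (8 * q) × Fin 2 := fun x s =>
    (⟨(x % (8 * q)).toNat, by
      have := Int.emod_lt_of_pos x (show (0 : ℤ) < 8 * q by omega); omega⟩,
      ⟨(s % 2).toNat, by omega⟩)
  have hπ : ∀ x s, F (π x s) = a ^ x * b ^ s := fun x s => by
    have := Int.emod_nonneg x (show (8 * q : ℤ) ≠ 0 by omega)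
    simp only [F, π]
    rw [Int.toNat_of_nonneg this, Int.toNat_of_nonneg (by omega),
      red ha' (x := x % (8 * q)) (y := x) ⟨-(x / (8 * q)), by rw [Int.emod_def]; ring⟩,
      red hb' (x := s % 2) (y := s) (by omega)]
  have hF : Surjective F := fun g => by
    suffices ∃ x s : ℤ, a ^ x * b ^ s = g from this.elim fun x ⟨s, h⟩ => ⟨_, (hπ x s).trans h⟩
    have hl : ∀ x s : ℤ, ∃ y t : ℤ, a ^ y * b ^ t = b * (a ^ x * b ^ s) := fun x s =>
      ⟨(4 * q - 1) * x, 1 + s, by rw [← mul_assoc, conj hba', zpow_add, zpow_one, mul_assoc]⟩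
    have : g ∈ Subgroup.closure {a, b} := hg ▸ trivial
    induction this using Subgroup.closure_induction_left with
    | one => exact ⟨0, 0, by simp⟩
    | mul_left x hx _ _ h =>
      obtain ⟨y, s, rfl⟩ := h
      rcases hx with rfl | rfl
      exacts [⟨1 + y, s, by rw [zpow_add, zpow_one, mul_assoc]⟩, hl _ _]
    | inv_mul_cancel x hx _ _ h =>
      obtain ⟨y, s, rfl⟩ := h
      rcases hx with rfl | rfl
      · exact ⟨-1 + y, s, by rw [zpow_add, zpow_neg_one, mul_assoc]⟩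
      · rw [inv_eq_of_mul_eq_one_right (by rw [← sq]; exact hb)]; exact hl _ _
  refine ⟨ha', hb', hba', fun x s y t h => ?_⟩
  have := ((Fintype.bijective_iff_surjective_and_card F).2 ⟨hF, by simp [hc]; ring⟩).1
    (((hπ x s).trans h).trans (hπ y t).symm)
  have h1 := Int.emod_nonneg x (show (8 * q : ℤ) ≠ 0 by omega)
  have h2 := Int.emod_nonneg y (show (8 * q : ℤ) ≠ 0 by omega)
  simp only [π, Prod.mk.injEq, Fin.mk.injEq] at this
  exact ⟨Int.dvd_of_emod_eq_zero (Int.emod_eq_emod_iff_emod_sub_eq_zero.1 (by omega)), by omega⟩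

variable {q : ℤ} {a b : G} (H : SD q a b)
include H

lemma SD.m0 (c : ℤ) {x s y t p : ℤ} (hs : s = 0) (h : p = x + y + 8 * c * q) :
    a ^ x * b ^ s * (a ^ y * b ^ t) = a ^ p * b ^ t := by
  rw [hs, zpow_zero, mul_one, ← mul_assoc, ← zpow_add]
  exact congrArg (· * _) (red H.ha ⟨-c, by rw [h]; ring⟩)

lemma SD.m1 (c : ℤ) {x s y t p : ℤ} (hs : s = 1) (hc : (y - c) % 2 = 0)
    (h : p = x - y + 4 * c * q) : a ^ x * b ^ s * (a ^ y * b ^ t) = a ^ p * b ^ (1 + t) := by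
  rw [hs, zpow_one, mul_assoc, ← mul_assoc b, conj H.hba, zpow_add b, zpow_one, mul_assoc,
    ← mul_assoc, ← zpow_add]
  obtain ⟨d, e⟩ := Int.dvd_of_emod_eq_zero hc
  exact congrArg (· * _) (red H.ha ⟨d, by rw [h, show y = c + 2 * d by omega]; ring⟩)

lemma SD.d0 (c : ℤ) {x s y t p : ℤ} (hs : s = 0) (h : p = y - x + 8 * c * q) :
    (a ^ x * b ^ s)⁻¹ * (a ^ y * b ^ t) = a ^ p * b ^ t := by
  rw [← H.m0 c (x := -x) (y := y) (t := t) (p := p) hs (by omega), hs]; simp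

lemma SD.d1 (c : ℤ) {x s y t p : ℤ} (hs : s = 1) (hc : (y - x - c) % 2 = 0)
    (h : p = x - y + 4 * c * q) : (a ^ x * b ^ s)⁻¹ * (a ^ y * b ^ t) = a ^ p * b ^ (1 + t) := by
  rw [← H.m1 c (x := 0) (y := y - x) hs hc (by omega), hs, mul_inv_rev, zpow_one,
    inv_eq_of_mul_eq_one_right (by rw [← zpow_two]; exact H.hb), ← neg_add_eq_sub, zpow_add]
  simp [mul_assoc]

lemma SD.tri {x s y t : ℤ} (h : a ^ x * b ^ s = a ^ y * b ^ t) (h1 : 0 ≤ x) (h2 : x < 16 * q)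
    (h3 : 0 ≤ y) (h4 : y < 16 * q) :
    (x = y ∨ x = y + 8 * q ∨ y = x + 8 * q) ∧ (s - t) % 2 = 0 := by
  obtain ⟨⟨c, e⟩, h'⟩ := H.inj _ _ _ _ h
  have : -2 < c := by nlinarith
  have : c < 2 := by nlinarith
  exact ⟨by interval_cases c <;> omega, by omega⟩

omit H in
lemma cyc {α β : Type*} (m : ℕ) [NeZero m] (u : ℤ → α) (f : α → α → β) (h0 : u m = u 0)
    (h : ∀ k l : ℤ, 0 ≤ k → k < m → 0 ≤ l → l < m →
      (u k = u l ∨ f (u k) (u (k + 1)) = f (u l) (u (l + 1))) → k = l) :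
    Injective (fun i : ZMod m => u i.val) ∧
      Injective fun i : ZMod m => f (u i.val) (u (i + 1).val) := by
  have e : ∀ i : ZMod m, u (i + 1).val = u (i.val + 1) := fun i => by
    have := i.val_lt
    rcases (show i.val + 1 < m ∨ i.val + 1 = m by omega) with h | h
    · rw [ZMod.val_add_of_lt (by rw [ZMod.val_one_eq_one_mod, Nat.mod_eq_of_lt (by omega)]; omega),
        ZMod.val_one_eq_one_mod, Nat.mod_eq_of_lt (by omega)]; simp
    · rw [show (i.val : ℤ) + 1 = m by omega, h0, ← ZMod.natCast_zmod_val i, ← Nat.cast_succ,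
        Nat.succ_eq_add_one, h]; simp
  have k : ∀ i j : ZMod m, _ → i = j := fun i j h' => ZMod.val_injective m (by
    exact_mod_cast h i.val j.val (by omega) (by exact_mod_cast i.val_lt) (by omega)
      (by exact_mod_cast j.val_lt) h')
  exact ⟨fun i j h => k i j (.inl h), fun i j h => k i j (.inr (by simpa only [e] using h))⟩

end Pool.Agent.H.MP_3abf0f_al
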